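import Pool.Agent.Helper67.R12.Sheet
import Pool.Agent.Helper29.R8.PAIR

set_option autoImplicit false

namespace Pool.Helper67.R12

open Pool.Helper17.R8 (ek fI fJ pI pJ)
open Pool.Helper34.R9 (Box ST_PR9)
open Pool.Helper29.R8 (eval_pI eval_pJ natDegree_pI natDegree_pJ cast_fI cast_fJ map_ek)
open Polynomial

theorem S29.MM_pos : 0 < MM :=
  mul_pos (by norm_num) (by exact_mod_cast Nat.factorial_pos QQ)

theorem S29.dvd_fact (n : ℕ) (h1 : 0 < n) (h2 : n ≤ 1000) :
    (n : ℤ) ∣ ((QQ.factorial : ℕ) : ℤ) :=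
  Int.natCast_dvd_natCast.2 (Nat.dvd_factorial h1 h2)

theorem S29.base_e2 : ek sb 2 = -2185 := by decide +kernel

theorem S29.e2_ne (hREL : ST_REL) (a : Fin 3 → ℕ) : ek (sa a) 2 ≠ 0 := by
  intro h0
  obtain ⟨-, -, -, -, hs, -⟩ := hREL (a, 0)
  have hfun : (fun i => Int.castRingHom (ZMod 7) (sa a i)) =
      fun i => Int.castRingHom (ZMod 7) (sb i) := by
    funext i
    have h5 : (7 : ℤ) ∣ sa a i - sb i := (S29.dvd_fact 7 (by norm_num) (by norm_num)).trans (hs i)
    obtain ⟨c, hc⟩ := h5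
    have h6 : sa a i = sb i + 7 * c := by linarith
    rw [h6, map_add, map_mul]
    have h7 : Int.castRingHom (ZMod 7) 7 = 0 := by decide
    rw [h7, zero_mul, add_zero]
  have h1 : Int.castRingHom (ZMod 7) (ek (sa a) 2) = Int.castRingHom (ZMod 7) (ek sb 2) := by
    rw [map_ek, map_ek, hfun]
  rw [h0, S29.base_e2] at h1
  revert h1
  simp
  decide

open Classical in
theorem st_PAIR (hREL : ST_REL) (hPR9 : ST_PR9) (hINJ : ST_INJ) : ST_PAIR := by
  have he2 : ∀ a : Fin 3 → ℕ, ((ek (sa a) 2 : ℤ) : ℚ) ≠ 0 := fun a =>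
    Int.cast_ne_zero.2 (S29.e2_ne hREL a)
  have hI : ∀ T T' : Par, cA T = cA T' →
      fI (ek (sa T.1)) (tt T) = fI (ek (sa T'.1)) (tt T') := by
    intro T T' h
    obtain ⟨-, -, h1, -⟩ := hREL T
    obtain ⟨-, -, h2, -⟩ := hREL T'
    rw [h] at h1
    linarith
  have hJ : ∀ T T' : Par, cB T = cB T' →
      fJ (ek (sa T.1)) (tt T) = fJ (ek (sa T'.1)) (tt T') := by
    intro T T' h
    obtain ⟨-, -, -, h1, -⟩ := hREL T
    obtain ⟨-, -, -, h2, -⟩ := hREL T'
    rw [h] at h1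
    linarith
  refine hPR9 MM 4 46 (fun a => pI (fun k => ((ek (sa a) k : ℤ) : ℚ)))
    (fun a => pJ (fun k => ((ek (sa a) k : ℤ) : ℚ)))
    (fun a => ek (sa a) 3 ^ 2) cA cB tt S29.MM_pos.ne'
    (fun a => natDegree_pI _ (he2 a)) (fun a => (natDegree_pJ _).1)
    (fun a a' => by rw [(natDegree_pJ _).2, (natDegree_pJ _).2])
    (fun T => (hREL T).1) ?_ ?_ ?_
  · intro T T' h
    simp only [eval_pI]
    rw [← cast_fI, ← cast_fI, hI T T' h]
  · intro T T' h
    simp only [eval_pJ]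
    rw [← cast_fJ, ← cast_fJ, hJ T T' h]
  · intro T T' hf hg
    have h37 : (37 : ℤ) ∣ tt T' - tt T := by
      obtain ⟨-, -, -, -, -, h1, -⟩ := hREL T
      obtain ⟨-, -, -, -, -, h2, -⟩ := hREL T'
      have h4 := dvd_sub h2 h1
      have h5 : tt T' - 112783871 - (tt T - 112783871) = tt T' - tt T := by ring
      rw [h5] at h4
      exact (S29.dvd_fact 37 (by norm_num) (by norm_num)).trans h4
    refine hINJ T.1 T'.1 _ h37 ?_
    intro τ
    constructor
    · have h := congrArg (fun P : ℚ[X] => P.eval (τ : ℚ)) hf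
      simp only [eval_comp, eval_add, eval_X, eval_C, eval_pI] at h
      have h' : ((fI (ek (sa T'.1)) (τ + (tt T' - tt T)) : ℤ) : ℚ) =
          ((fI (ek (sa T.1)) τ : ℤ) : ℚ) := by
        rw [cast_fI, cast_fI, Int.cast_add]
        exact h
      exact Int.cast_injective h'
    · have h := congrArg (fun P : ℚ[X] => P.eval (τ : ℚ)) hg
      simp only [eval_comp, eval_add, eval_X, eval_C, eval_pJ] at h
      have h' : ((fJ (ek (sa T'.1)) (τ + (tt T' - tt T)) : ℤ) : ℚ) =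
          ((fJ (ek (sa T.1)) τ : ℤ) : ℚ) := by
        rw [cast_fJ, cast_fJ, Int.cast_add]
        exact h
      exact Int.cast_injective h'

end Pool.Helper67.R12
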